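import Pool.Agent.Helper17.TH.GoalsII

/-!
# Project TH, packet S_COK
-/

set_option autoImplicit false

namespace Pool.Agent.Helper12.TH

open IsLocalRing

theorem s_cok : Pool.Agent.Helper17.TH.S_COK := by
  classical
  intro p _ N _ _ _ T Q hQ
  set I : Ideal ℤ_[p] := maximalIdeal ℤ_[p] with hI
  set W : Submodule ℤ_[p] N := I • (⊤ : Submodule ℤ_[p] N) with hW
  have memW : ∀ x : N, x ∈ W ↔ ∃ w, x = p • w := by
    intro x
    rw [hW, hI, PadicInt.maximalIdeal_eq_span_p, Submodule.ideal_span_singleton_smul,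
      Submodule.mem_smul_pointwise_iff_exists]
    constructor
    · rintro ⟨b, -, hb⟩
      exact ⟨b, by rw [← hb, Nat.cast_smul_eq_nsmul]⟩
    · rintro ⟨w, hw⟩
      exact ⟨w, Submodule.mem_top, by rw [hw, Nat.cast_smul_eq_nsmul]⟩
  -- the quotient is finite
  have hfinR : Finite (ℤ_[p] ⧸ I) := by
    have e : (ℤ_[p] ⧸ I) ≃ ZMod p := (PadicInt.residueField (p := p)).toEquiv
    exact Finite.of_equiv _ e.symm
  have hfinV : Finite (N ⧸ W) := by
    have : Module.Finite (ℤ_[p] ⧸ I) (N ⧸ W) :=
      Module.Finite.of_restrictScalars_finite ℤ_[p] (ℤ_[p] ⧸ I) (N ⧸ W)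
    exact Module.finite_of_finite (ℤ_[p] ⧸ I)
  have hTW : W ≤ W.comap T := by
    intro x hx
    rw [memW] at hx
    obtain ⟨w, rfl⟩ := hx
    rw [Submodule.mem_comap, memW]
    exact ⟨T w, by rw [map_nsmul]⟩
  set t : (N ⧸ W) →ₗ[ℤ_[p]] (N ⧸ W) := W.mapQ W T hTW with ht
  -- the kernel
  have hker : Nat.card (LinearMap.ker t) ≤ Q := by
    have hfk : Finite (LinearMap.ker t) := inferInstance
    let inst : Fintype (LinearMap.ker t) := Fintype.ofFinite _
    have hout : ∀ v : LinearMap.ker t, ∃ u : N, W.mkQ u = v.1 := fun v => W.mkQ_surjective v.1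
    choose out hout using hout
    have hinj : Function.Injective out := by
      intro a b hab
      apply Subtype.ext
      rw [← hout a, ← hout b, hab]
    have h1 := hQ (Finset.univ.image out) (by
      intro u hu
      obtain ⟨v, -, rfl⟩ := Finset.mem_image.mp hu
      rw [← memW]
      have h2 : t v.1 = 0 := v.2
      rw [← hout v, ht, Submodule.mkQ_apply, Submodule.mapQ_apply,
        Submodule.Quotient.mk_eq_zero] at h2
      exact h2) (by
      intro u hu u' hu' h2
      obtain ⟨v, -, rfl⟩ := Finset.mem_image.mp hu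
      obtain ⟨v', -, rfl⟩ := Finset.mem_image.mp hu'
      rw [← memW, ← Submodule.Quotient.mk_eq_zero, Submodule.Quotient.mk_sub, sub_eq_zero] at h2
      have h3 : W.mkQ (out v) = W.mkQ (out v') := h2
      rw [hout, hout] at h3
      rw [Subtype.ext h3])
    rw [Finset.card_image_of_injective _ hinj, Finset.card_univ, ← Nat.card_eq_fintype_card] at h1
    exact h1
  -- the cokernel
  have hcok : Nat.card ((N ⧸ W) ⧸ LinearMap.range t) ≤ Q := by
    have h1 := Submodule.card_eq_card_quotient_mul_card (LinearMap.ker t)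
    have h2 := Submodule.card_eq_card_quotient_mul_card (LinearMap.range t)
    have h3 : Nat.card ((N ⧸ W) ⧸ LinearMap.ker t) = Nat.card (LinearMap.range t) :=
      Nat.card_congr (t.quotKerEquivRange).toEquiv
    rw [h1, h3, mul_comm] at h2
    have h4 : 0 < Nat.card (LinearMap.range t) := Nat.card_pos
    have h5 := Nat.eq_of_mul_eq_mul_left h4 h2
    rw [← h5]
    exact hker
  have hfC : Finite ((N ⧸ W) ⧸ LinearMap.range t) := Quotient.finite _
  let instC : Fintype ((N ⧸ W) ⧸ LinearMap.range t) := Fintype.ofFinite _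
  obtain ⟨f⟩ : Nonempty (((N ⧸ W) ⧸ LinearMap.range t) ↪ Fin Q) := by
    apply Function.Embedding.nonempty_of_card_le
    rw [Fintype.card_fin, ← Nat.card_eq_fintype_card]
    exact hcok
  have hsurj : Function.Surjective (Function.invFun f) := Function.invFun_surjective f.injective
  have hlift : ∀ i : Fin Q, ∃ u : N, (LinearMap.range t).mkQ (W.mkQ u) = Function.invFun f i := by
    intro i
    obtain ⟨v, hv⟩ := (LinearMap.range t).mkQ_surjective (Function.invFun f i)
    obtain ⟨u, hu⟩ := W.mkQ_surjective v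
    exact ⟨u, by rw [hu, hv]⟩
  choose w hw using hlift
  refine ⟨w, ?_⟩
  have hle : (⊤ : Submodule ℤ_[p] N) ≤
      Submodule.span ℤ_[p] (Set.range w) ⊔ LinearMap.range T := by
    apply Submodule.le_of_le_smul_of_le_jacobson_bot (I := I) Module.Finite.fg_top
      (maximalIdeal_le_jacobson ⊥)
    intro x _
    obtain ⟨i, hi⟩ := hsurj ((LinearMap.range t).mkQ (W.mkQ x))
    rw [← hw i] at hi
    have h1 : (LinearMap.range t).mkQ (W.mkQ x - W.mkQ (w i)) = 0 := by
      rw [map_sub, hi, sub_self]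
    rw [Submodule.mkQ_apply, Submodule.Quotient.mk_eq_zero] at h1
    obtain ⟨v, hv⟩ := h1
    obtain ⟨y, rfl⟩ := W.mkQ_surjective v
    have h2 : x - w i - T y ∈ W := by
      rw [← Submodule.Quotient.mk_eq_zero, Submodule.Quotient.mk_sub, Submodule.Quotient.mk_sub,
        sub_eq_zero]
      rw [ht, Submodule.mkQ_apply, Submodule.mapQ_apply] at hv
      exact hv.symm
    have h3 : x = (w i + T y) + (x - w i - T y) := by abel
    rw [h3]
    apply Submodule.add_mem_sup _ h2
    exact Submodule.add_mem_sup (Submodule.subset_span ⟨i, rfl⟩) ⟨y, rfl⟩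
  intro x
  obtain ⟨a, ha, b, ⟨y, rfl⟩, hab⟩ := Submodule.mem_sup.mp (hle (Submodule.mem_top (x := x)))
  rw [Submodule.mem_span_range_iff_exists_fun] at ha
  obtain ⟨c, hc⟩ := ha
  exact ⟨c, y, by rw [hc, hab]⟩

end Pool.Agent.Helper12.TH
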