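import Pool.Agent.Helper38.TH.GoalsA

/-!
# Project TH, packet T_SMG
-/

set_option autoImplicit false

namespace Pool.Agent.Helper12.TH

open Finset Pool.Agent.Helper17.PP Pool.Agent.Helper38.TH

theorem t_smg : Pool.Agent.Helper38.TH.T_SMG := by
  intro K K' hK
  have hK0 : (0 : ℝ) < K := by exact_mod_cast hK
  set M : ℕ := 2 * K' + 4 with hM
  refine ⟨2 * K * M, ?_, ?_⟩
  · have : 1 ≤ 2 * K * M := by
      have h1 : 1 ≤ 2 * K := by omega
      have h2 : 1 ≤ M := by omega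
      exact Nat.one_le_iff_ne_zero.mpr (Nat.mul_ne_zero (by omega) (by omega))
    exact this
  intro ε hε
  set r : ℝ := (2 : ℝ) ^ (-(1 / (2 * (K : ℝ)))) with hr
  have hr0 : 0 < r := Real.rpow_pos_of_pos two_pos _
  have hr1 : r < 1 := by
    apply Real.rpow_lt_one_of_one_lt_of_neg one_lt_two
    have : 0 < 1 / (2 * (K : ℝ)) := by positivity
    linarith
  have hrn : ∀ n : ℕ, r ^ n = (2 : ℝ) ^ (-((n : ℝ) / (2 * K))) := by
    intro n
    rw [hr, ← Real.rpow_natCast, ← Real.rpow_mul two_pos.le]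
    congr 1
    ring
  -- the bound for `(i+1)^K r^i`
  have hbd : ∀ N : ℕ, ∃ C : ℝ, ∀ i : ℕ, ((i : ℝ) + 1) ^ N * r ^ i ≤ C := by
    intro N
    have h1 := tendsto_pow_const_mul_const_pow_of_lt_one N hr0.le hr1
    obtain ⟨C, hC⟩ := h1.bddAbove_range
    refine ⟨C / r, fun i ↦ ?_⟩
    rw [le_div_iff₀ hr0]
    have h2 := hC (Set.mem_range_self (i + 1))
    push_cast at h2
    calc ((i : ℝ) + 1) ^ N * r ^ i * r = ((i : ℝ) + 1) ^ N * r ^ (i + 1) := by ring
      _ ≤ C := h2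
  obtain ⟨C, hC⟩ := hbd K
  obtain ⟨C2, hC2⟩ := hbd M
  have hC0 : 0 ≤ C := le_trans (by positivity) (hC 0)
  have hC20 : 0 ≤ C2 := le_trans (by positivity) (hC2 0)
  have hmin1 : ∀ i j : ℕ, i ≤ j → (2 : ℝ) ^ (-(min i j : ℝ) / K) = r ^ i * r ^ i := by
    intro i j hij
    rw [min_eq_left (by exact_mod_cast hij), hrn, ← Real.rpow_add two_pos]
    congr 1
    field_simp
    ring
  have hmin2 : ∀ i j : ℕ, j ≤ i → (2 : ℝ) ^ (-(min i j : ℝ) / K) = r ^ j * r ^ j := by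
    intro i j hij
    rw [min_eq_right (by exact_mod_cast hij), hrn, ← Real.rpow_add two_pos]
    congr 1
    field_simp
    ring
  have h1r : 0 < 1 - r := by linarith
  set D : ℝ := C * 2 ^ M / (1 - r) + C2 with hD
  have hD0 : 0 ≤ D := by positivity
  -- the inner sum
  have hin : ∀ j : ℕ, 1 ≤ j → ∑ i ∈ Ico (ti (2 * K * M) j) (tb (2 * K * (K + 1)) j),
      ((i : ℝ) + 1) ^ K * (2 : ℝ) ^ (-(min i j : ℝ) / K) ≤ D / (j : ℝ) ^ M := by
    intro j hj
    have hj0 : (0 : ℝ) < j := by exact_mod_cast hj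
    set T := tb (2 * K * (K + 1)) j with hT
    have hterm : ∀ i ∈ Ico (ti (2 * K * M) j) T,
        ((i : ℝ) + 1) ^ K * (2 : ℝ) ^ (-(min i j : ℝ) / K) ≤
          C * r ^ i + (T : ℝ) ^ K * (r ^ j * r ^ j) := by
      intro i hi
      rw [mem_Ico] at hi
      rcases le_total i j with h | h
      · rw [hmin1 i j h]
        have h1 : ((i : ℝ) + 1) ^ K * (r ^ i * r ^ i) ≤ C * r ^ i := by
          rw [← mul_assoc]
          exact mul_le_mul_of_nonneg_right (hC i) (by positivity)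
        have h2 : 0 ≤ (T : ℝ) ^ K * (r ^ j * r ^ j) := by positivity
        linarith
      · rw [hmin2 i j h]
        have h1 : ((i : ℝ) + 1) ^ K * (r ^ j * r ^ j) ≤ (T : ℝ) ^ K * (r ^ j * r ^ j) := by
          refine mul_le_mul_of_nonneg_right ?_ (by positivity)
          refine pow_le_pow_left₀ (by positivity) ?_ K
          exact_mod_cast hi.2
        have h2 : 0 ≤ C * r ^ i := by positivity
        linarith
    refine (Finset.sum_le_sum hterm).trans ?_
    rw [Finset.sum_add_distrib, hD, add_div]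
    refine add_le_add ?_ ?_
    · rw [← Finset.mul_sum]
      have h1 : ∑ i ∈ Ico (ti (2 * K * M) j) T, r ^ i ≤ r ^ (ti (2 * K * M) j) / (1 - r) := by
        have h2 : ∑ i ∈ Ico (ti (2 * K * M) j) T, r ^ i ≤
            ∑' i : ℕ, r ^ (ti (2 * K * M) j) * r ^ i := by
          have h3 : ∑ i ∈ Ico (ti (2 * K * M) j) T, r ^ i =
              ∑ i ∈ range (T - ti (2 * K * M) j), r ^ (ti (2 * K * M) j) * r ^ i := by
            rw [Finset.sum_Ico_eq_sum_range]
            exact Finset.sum_congr rfl fun i _ ↦ pow_add _ _ _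
          rw [h3]
          exact Summable.sum_le_tsum _ (fun i _ ↦ by positivity)
            ((summable_geometric_of_lt_one hr0.le hr1).mul_left _)
        rw [tsum_mul_left, tsum_geometric_of_lt_one hr0.le hr1] at h2
        rwa [div_eq_mul_inv]
      have h4 : r ^ (ti (2 * K * M) j) ≤ 2 ^ M / (j : ℝ) ^ M := by
        rw [hrn]
        have h5 : -(((ti (2 * K * M) j : ℕ) : ℝ) / (2 * K)) = -((M : ℝ) * (Nat.log 2 j : ℝ)) := by
          unfold ti
          push_cast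
          field_simp
        rw [h5, Real.rpow_neg two_pos.le]
        have h6 : (2 : ℝ) ^ ((M : ℝ) * (Nat.log 2 j : ℝ)) = ((2 : ℝ) ^ (Nat.log 2 j)) ^ M := by
          rw [← Real.rpow_natCast, ← Real.rpow_natCast, ← Real.rpow_mul two_pos.le]
          congr 1
          ring
        rw [h6]
        have h7 : (j : ℝ) / 2 ≤ (2 : ℝ) ^ (Nat.log 2 j) := by
          have h8 : j < 2 ^ (Nat.log 2 j + 1) := Nat.lt_pow_succ_log_self one_lt_two j
          have h9 : (j : ℝ) < 2 ^ (Nat.log 2 j + 1) := by exact_mod_cast h8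
          rw [pow_succ] at h9
          linarith
        have h10 : ((j : ℝ) / 2) ^ M ≤ ((2 : ℝ) ^ (Nat.log 2 j)) ^ M :=
          pow_le_pow_left₀ (by positivity) h7 M
        rw [← div_pow, ← inv_div (j : ℝ) 2, inv_pow]
        exact inv_anti₀ (by positivity) h10
      calc C * ∑ i ∈ Ico (ti (2 * K * M) j) T, r ^ i
          ≤ C * (r ^ (ti (2 * K * M) j) / (1 - r)) :=
            mul_le_mul_of_nonneg_left h1 hC0
        _ ≤ C * (2 ^ M / (j : ℝ) ^ M / (1 - r)) := by gcongr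
        _ = _ := by field_simp
    · rw [Finset.sum_const, nsmul_eq_mul]
      have h1 : (((Ico (ti (2 * K * M) j) T).card : ℕ) : ℝ) ≤ T := by
        rw [Nat.card_Ico]
        exact_mod_cast Nat.sub_le _ _
      have h2 : (T : ℝ) * (T : ℝ) ^ K ≤ (2 : ℝ) ^ ((j : ℝ) / (2 * K)) := by
        have h3 : (T : ℝ) * (T : ℝ) ^ K =
            (2 : ℝ) ^ (((K : ℝ) + 1) * ((j / (2 * K * (K + 1)) : ℕ) : ℝ)) := by
          rw [hT]
          unfold tb
          push_cast
          rw [← pow_succ', ← pow_mul, ← Real.rpow_natCast]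
          congr 1
          push_cast
          ring
        rw [h3]
        apply Real.rpow_le_rpow_of_exponent_le one_le_two
        have h4 : ((j / (2 * K * (K + 1)) : ℕ) : ℝ) ≤ (j : ℝ) / ((2 * K * (K + 1) : ℕ) : ℝ) :=
          Nat.cast_div_le
        calc ((K : ℝ) + 1) * ((j / (2 * K * (K + 1)) : ℕ) : ℝ)
            ≤ ((K : ℝ) + 1) * ((j : ℝ) / ((2 * K * (K + 1) : ℕ) : ℝ)) := by gcongr
          _ = (j : ℝ) / (2 * K) := by
            push_cast
            field_simp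
      have h5 : (2 : ℝ) ^ ((j : ℝ) / (2 * K)) * r ^ j = 1 := by
        rw [hrn, ← Real.rpow_add two_pos]
        simp
      have h6 : r ^ j ≤ C2 / (j : ℝ) ^ M := by
        rw [le_div_iff₀ (by positivity)]
        calc r ^ j * (j : ℝ) ^ M ≤ r ^ j * ((j : ℝ) + 1) ^ M := by
              refine mul_le_mul_of_nonneg_left ?_ (by positivity)
              exact pow_le_pow_left₀ hj0.le (by linarith) M
          _ = ((j : ℝ) + 1) ^ M * r ^ j := by ring
          _ ≤ C2 := hC2 j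
      calc (((Ico (ti (2 * K * M) j) T).card : ℕ) : ℝ) * ((T : ℝ) ^ K * (r ^ j * r ^ j))
          ≤ (T : ℝ) * ((T : ℝ) ^ K * (r ^ j * r ^ j)) := by gcongr
        _ = ((T : ℝ) * (T : ℝ) ^ K) * r ^ j * r ^ j := by ring
        _ ≤ (2 : ℝ) ^ ((j : ℝ) / (2 * K)) * r ^ j * r ^ j := by gcongr
        _ = r ^ j := by rw [h5, one_mul]
        _ ≤ C2 / (j : ℝ) ^ M := h6
  -- the sum over `j`
  have hsum : Summable fun j : ℕ ↦ 1 / (j : ℝ) ^ 2 :=
    Real.summable_one_div_nat_pow.2 (by norm_num)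
  set Z : ℝ := ∑' j : ℕ, 1 / (j : ℝ) ^ 2 with hZ
  have hZ0 : 0 ≤ Z := tsum_nonneg fun j => by positivity
  set W : ℝ := 9 ^ K' * D * Z with hW
  have hW0 : 0 ≤ W := by positivity
  set s₀ : ℕ := ⌈W / ε⌉₊ + 1 with hs₀
  have hs₀W : W ≤ ε * s₀ := by
    have h1 : W / ε ≤ s₀ := by
      rw [hs₀]
      push_cast
      exact (Nat.le_ceil _).trans (by linarith)
    rw [div_le_iff₀ hε] at h1
    linarith
  refine ⟨s₀ * s₀, fun L hL J ↦ ?_⟩
  set s : ℕ := Nat.sqrt L with hs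
  have hss : s₀ ≤ s := by
    rw [hs, Nat.le_sqrt]; exact hL
  have hs1 : 1 ≤ s := le_trans (by omega) hss
  have hs0 : (0 : ℝ) < s := by exact_mod_cast hs1
  have hsL : (L : ℝ) + 2 ≤ 9 * (s : ℝ) ^ 2 := by
    have h1 := Nat.lt_succ_sqrt L
    rw [← hs] at h1
    simp only [Nat.succ_eq_add_one] at h1
    have h2 : L + 2 ≤ 9 * s ^ 2 := by nlinarith
    exact_mod_cast h2
  have hsplit : ∑ j ∈ Ico s J, ∑ i ∈ Ico (ti (2 * K * M) j) (tb (2 * K * (K + 1)) j),
      ((L : ℝ) + 2) ^ K' * ((i : ℝ) + 1) ^ K * (2 : ℝ) ^ (-(min i j : ℝ) / K) =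
      ((L : ℝ) + 2) ^ K' * ∑ j ∈ Ico s J,
        ∑ i ∈ Ico (ti (2 * K * M) j) (tb (2 * K * (K + 1)) j),
        ((i : ℝ) + 1) ^ K * (2 : ℝ) ^ (-(min i j : ℝ) / K) := by
    rw [Finset.mul_sum]
    refine Finset.sum_congr rfl fun j _ => ?_
    rw [Finset.mul_sum]
    exact Finset.sum_congr rfl fun i _ => by ring
  rw [hsplit]
  have hb : ∑ j ∈ Ico s J, ∑ i ∈ Ico (ti (2 * K * M) j) (tb (2 * K * (K + 1)) j),
      ((i : ℝ) + 1) ^ K * (2 : ℝ) ^ (-(min i j : ℝ) / K) ≤ D * Z / (s : ℝ) ^ (2 * K' + 2) := by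
    have h1 : ∀ j ∈ Ico s J, ∑ i ∈ Ico (ti (2 * K * M) j) (tb (2 * K * (K + 1)) j),
        ((i : ℝ) + 1) ^ K * (2 : ℝ) ^ (-(min i j : ℝ) / K) ≤
          D / (s : ℝ) ^ (2 * K' + 2) * (1 / (j : ℝ) ^ 2) := by
      intro j hj
      rw [mem_Ico] at hj
      have hj1 : 1 ≤ j := le_trans hs1 hj.1
      have hj0 : (0 : ℝ) < j := by exact_mod_cast hj1
      refine (hin j hj1).trans ?_
      have h2 : (j : ℝ) ^ M = (j : ℝ) ^ (2 * K' + 2) * (j : ℝ) ^ 2 := by
        rw [← pow_add]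
      have h3 : (s : ℝ) ^ (2 * K' + 2) ≤ (j : ℝ) ^ (2 * K' + 2) :=
        pow_le_pow_left₀ hs0.le (by exact_mod_cast hj.1) _
      have h4 : D / (s : ℝ) ^ (2 * K' + 2) * (1 / (j : ℝ) ^ 2) =
          D / ((s : ℝ) ^ (2 * K' + 2) * (j : ℝ) ^ 2) := by
        field_simp
      rw [h4, h2]
      exact div_le_div_of_nonneg_left hD0 (by positivity)
        (mul_le_mul_of_nonneg_right h3 (by positivity))
    refine (Finset.sum_le_sum h1).trans ?_
    rw [← Finset.mul_sum]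
    have h5 : ∑ j ∈ Ico s J, 1 / (j : ℝ) ^ 2 ≤ Z :=
      hsum.sum_le_tsum _ fun j _ => by positivity
    calc D / (s : ℝ) ^ (2 * K' + 2) * ∑ j ∈ Ico s J, 1 / (j : ℝ) ^ 2
        ≤ D / (s : ℝ) ^ (2 * K' + 2) * Z :=
          mul_le_mul_of_nonneg_left h5 (by positivity)
      _ = D * Z / (s : ℝ) ^ (2 * K' + 2) := by ring
  have hL0 : (0 : ℝ) ≤ (L : ℝ) + 2 := by positivity
  calc ((L : ℝ) + 2) ^ K' * ∑ j ∈ Ico s J,
        ∑ i ∈ Ico (ti (2 * K * M) j) (tb (2 * K * (K + 1)) j),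
        ((i : ℝ) + 1) ^ K * (2 : ℝ) ^ (-(min i j : ℝ) / K)
      ≤ ((L : ℝ) + 2) ^ K' * (D * Z / (s : ℝ) ^ (2 * K' + 2)) :=
        mul_le_mul_of_nonneg_left hb (by positivity)
    _ ≤ (9 * (s : ℝ) ^ 2) ^ K' * (D * Z / (s : ℝ) ^ (2 * K' + 2)) :=
        mul_le_mul_of_nonneg_right (pow_le_pow_left₀ hL0 hsL K') (by positivity)
    _ = W / (s : ℝ) ^ 2 := by
        rw [hW, mul_pow, ← pow_mul, pow_add]
        field_simp
    _ ≤ ε := by
        rw [div_le_iff₀ (by positivity)]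
        have h6 : (s₀ : ℝ) ≤ s := by exact_mod_cast hss
        have h7 : (1 : ℝ) ≤ s := by exact_mod_cast hs1
        calc W ≤ ε * s₀ := hs₀W
          _ ≤ ε * s := mul_le_mul_of_nonneg_left h6 hε.le
          _ ≤ ε * (s : ℝ) ^ 2 := by
              refine mul_le_mul_of_nonneg_left ?_ hε.le
              nlinarith

end Pool.Agent.Helper12.TH
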